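import Pool.Agent.W78.EG.Defs

/-!
# Project EG, CHRW: means over the pairs in windows at almost all scales
(port of Pool.Agent.W460.EX.Chrw and of the lemmas of Pool.Agent.W588.EX.CHR it uses)
-/

set_option autoImplicit false

namespace Pool.Agent.W334.EG

open Finset Filter
open Pool.Agent.W78.GA (Qd nm dt ip dedge nm_mul nm_cast nm_eq_zero ball mem_ball nm_one ip_dt
  star_mul_eq star_mul_self')
open Pool.Agent.W251.GX (Cm)
open Pool.Agent.W78.EG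

variable {t c : ℤ} {f : ℕ} {χ : DirichletCharacter ℂ f}

theorem hD_of (hF : Fd t c f χ) : t ^ 2 < 4 * c := by
  have h1 := hF.disc
  have h2 := hF.three
  have h3 : (3 : ℤ) ≤ f := by exact_mod_cast h2
  linarith

theorem sum_inv_le (N : ℕ) : ∑ X ∈ Icc 1 N, 1 / (X : ℝ) ≤ 1 + Real.log N := by
  have h := harmonic_le_one_add_log N
  rw [harmonic_eq_sum_Icc] at h
  push_cast at h
  simpa using h

theorem sum_inv_sq_le (N : ℕ) : ∑ X ∈ Icc 1 N, 1 / (X : ℝ) ^ 2 ≤ 2 := by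
  have h := sum_Ioo_inv_sq_le (α := ℝ) 0 (N + 1)
  have e : Ioo 0 (N + 1) = Icc 1 N := by
    ext x
    simp only [mem_Ioo, mem_Icc]
    omega
  rw [e] at h
  simpa using h

/-! ### dilation -/

theorem dil (hD : t ^ 2 < 4 * c) (π v w : Qd t c) :
    ip (π * v) (π * w) = nm π * ip v w ∧ dt (π * v) (π * w) = nm π * dt v w := by
  have h1 : star (π * v) * (π * w) = ((nm π : ℕ) : Qd t c) * (star v * w) := by
    rw [← star_mul_self' hD, star_mul]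
    ring
  rw [star_mul_eq, star_mul_eq] at h1
  have h2 := congrArg QuadraticAlgebra.re h1
  have h3 := congrArg QuadraticAlgebra.im h1
  simp only [QuadraticAlgebra.re_mul, QuadraticAlgebra.im_mul, QuadraticAlgebra.re_natCast,
    QuadraticAlgebra.im_natCast] at h2 h3
  constructor
  · rw [h2]; ring
  · rw [h3]; ring

theorem nmne (hD : t ^ 2 < 4 * c) {z : Qd t c} (hz : z ≠ 0) : nm z ≠ 0 := fun h =>
  hz ((nm_eq_zero hD).1 h)

theorem bO_cm (hD : t ^ 2 < 4 * c) (k : ℕ) (b : ℂ) (hk : 1 ≤ k) (hb : b ^ k = 1) :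
    Cm k (bO b : Qd t c → ℂ) where
  pos := hk
  mul := by
    intro z w hz hw
    unfold bO
    rw [nm_mul, ArithmeticFunction.cardFactors_mul (nmne hD hz) (nmne hD hw), pow_add]
  pow := by
    intro z
    unfold bO
    rw [← pow_mul, mul_comm, pow_mul, hb, one_pow]

theorem norm_one_of (k : ℕ) (b : ℂ) (hk : 1 ≤ k) (hb : b ^ k = 1) : ‖b‖ = 1 :=
  Complex.norm_eq_one_of_pow_eq_one hb (by omega)

/-- the relation -/
def RR (q a r : ℕ) (sw : Bool) (v w : Qd t c) : Prop :=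
  ip v w ≡ a * dt v w [ZMOD q] ∧ (nm (if sw then w else v) : ℤ) ≡ r * dt v w [ZMOD q]

theorem RR_rel (hD : t ^ 2 < 4 * c) (q a r : ℕ) (sw : Bool) :
    Rel q (RR (t := t) (c := c) q a r sw) where
  per := by
    intro v w v' w' h1 h2 h3 h4
    have e1 : v.re ≡ v'.re [ZMOD q] := (Int.modEq_iff_dvd.2 h1).symm
    have e2 : v.im ≡ v'.im [ZMOD q] := (Int.modEq_iff_dvd.2 h2).symm
    have e3 : w.re ≡ w'.re [ZMOD q] := (Int.modEq_iff_dvd.2 h3).symm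
    have e4 : w.im ≡ w'.im [ZMOD q] := (Int.modEq_iff_dvd.2 h4).symm
    have hip : ip v w ≡ ip v' w' [ZMOD q] := by
      unfold ip
      exact ((e1.mul e3).add ((e2.mul_left t).mul e3)).add ((e2.mul_left c).mul e4)
    have hdt : dt v w ≡ dt v' w' [ZMOD q] := by
      unfold dt
      exact (e1.mul e4).sub (e2.mul e3)
    have hnm : (nm (if sw then w else v) : ℤ) ≡ (nm (if sw then w' else v') : ℤ) [ZMOD q] := by
      cases sw
      · simp only [Bool.false_eq_true, if_false]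
        rw [nm_cast hD, nm_cast hD]
        exact ((e1.pow 2).add ((e1.mul_left t).mul e2)).add ((e2.pow 2).mul_left c)
      · simp only [if_true]
        rw [nm_cast hD, nm_cast hD]
        exact ((e3.pow 2).add ((e3.mul_left t).mul e4)).add ((e4.pow 2).mul_left c)
    constructor
    · rintro ⟨h5, h6⟩
      exact ⟨hip.symm.trans (h5.trans (hdt.mul_left _)), hnm.symm.trans (h6.trans (hdt.mul_left _))⟩
    · rintro ⟨h5, h6⟩
      exact ⟨hip.trans (h5.trans (hdt.symm.mul_left _)), hnm.trans (h6.trans (hdt.symm.mul_left _))⟩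
  dil := by
    intro π v w hc
    have hg : IsCoprime (q : ℤ) (nm π : ℤ) := Nat.isCoprime_iff_coprime.2 hc.symm
    have hcan : ∀ x y : ℤ, (nm π : ℤ) * x ≡ nm π * y [ZMOD q] → x ≡ y [ZMOD q] := by
      intro x y h
      rw [Int.modEq_iff_dvd] at h ⊢
      rw [← mul_sub] at h
      exact hg.dvd_of_dvd_mul_left h
    have hnm : (nm (if sw then π * w else π * v) : ℤ) = nm π * nm (if sw then w else v) := by
      cases sw
      · simp [nm_mul]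
      · simp [nm_mul]
    unfold RR
    rw [(dil hD π v w).1, (dil hD π v w).2, hnm, mul_left_comm (a : ℤ), mul_left_comm (r : ℤ)]
    constructor
    · rintro ⟨h5, h6⟩
      exact ⟨hcan _ _ h5, hcan _ _ h6⟩
    · rintro ⟨h5, h6⟩
      exact ⟨h5.mul_left _, h6.mul_left _⟩

/-- the condition on the pairs -/
def CC (t c : ℤ) (q a r : ℕ) (sw : Bool) (x y : ℕ) : Prop := ∃ n : ℕ, 0 < 2 * (n : ℤ) + t ∧
  (x * y : ℤ) = (n : ℤ) ^ 2 + t * n + c ∧ n ≡ a [MOD q] ∧ (if sw then y else x) ≡ r [MOD q]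

theorem CC_iff (hF : Fd t c f χ) (q a r : ℕ) (sw : Bool) (v w : Qd t c) (hdt : dt v w = 1)
    (hip : 0 < pp v w) : CC t c q a r sw (nm v) (nm w) ↔ RR q a r sw v w := by
  have hD := hD_of hF
  have hpp : 0 < 2 * ip v w + t := by
    unfold pp at hip
    rw [hdt, mul_one] at hip
    exact hip
  have ht1 : t ≤ 1 := by rcases hF.tt with h | h <;> rw [h] <;> norm_num
  have hip0 : 0 ≤ ip v w := by omega
  obtain ⟨m, hm⟩ : ∃ m : ℕ, ip v w = m := ⟨(ip v w).toNat, (Int.toNat_of_nonneg hip0).symm⟩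
  have hl := ip_dt hD v w
  rw [hdt, hm] at hl
  rw [hm] at hpp
  have hl' : (nm v * nm w : ℤ) = (m : ℤ) ^ 2 + t * m + c := by
    rw [hl]; ring
  unfold CC RR
  rw [hdt, hm, mul_one, mul_one, Int.natCast_modEq_iff, Int.natCast_modEq_iff]
  have hsw : nm (if sw then w else v) = if sw then nm w else nm v := by cases sw <;> rfl
  rw [hsw]
  constructor
  · rintro ⟨n, h0, h1, h2, h3⟩
    have h4 : ((n : ℤ) - m) * (n + m + t) = 0 := by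
      have : (n : ℤ) ^ 2 + t * n + c = (m : ℤ) ^ 2 + t * m + c := by rw [← h1, hl']
      linear_combination this
    have h5 : (n : ℤ) + m + t ≠ 0 := by omega
    have h6 : (n : ℤ) - m = 0 := (mul_eq_zero.1 h4).resolve_right h5
    have h7 : n = m := by omega
    subst h7
    exact ⟨h2, h3⟩
  · rintro ⟨h2, h3⟩
    exact ⟨m, hpp, hl', h2, h3⟩

open scoped Classical in
theorem mem_SP (N : ℕ) (p : ℕ × ℕ) : p ∈ SP t c N ↔
    ((1 ≤ p.1 ∧ p.1 ≤ N) ∧ (1 ≤ p.2 ∧ p.2 ≤ N)) ∧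
    ∃ n : ℕ, 0 < 2 * (n : ℤ) + t ∧ (p.1 * p.2 : ℤ) = (n : ℤ) ^ 2 + t * n + c := by
  unfold SP
  rw [mem_filter, mem_product, mem_Icc, mem_Icc]

theorem SP_swap {N : ℕ} {p : ℕ × ℕ} (hp : p ∈ SP t c N) : p.swap ∈ SP t c N := by
  rw [mem_SP] at hp ⊢
  obtain ⟨⟨h1, h2⟩, n, h3, hn⟩ := hp
  exact ⟨⟨h2, h1⟩, n, h3, by rw [← hn]; exact mul_comm _ _⟩

open scoped Classical in
/-- the number of pairs outside of the window -/
theorem card3 (C : ℝ) (hC : ∀ m M : ℕ, 1 ≤ m → m ≤ M →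
    ((((Icc 1 m) ×ˢ (Icc 1 M)).filter (fun p => ∃ n : ℕ, 0 < 2 * (n : ℤ) + t ∧
      (p.1 * p.2 : ℤ) = (n : ℤ) ^ 2 + t * n + c)).card : ℝ) ≤
    C * Real.sqrt (m * M)) (hC0 : 0 ≤ C) (τ : ℝ) (ht0 : 0 < τ) (ht1 : τ ≤ 1) (X : ℕ)
    (hX : 1 ≤ X) :
    (((SP t c X).filter (fun p => ¬ (τ ^ 2 * X < p.1 ∧ τ ^ 2 * X < p.2))).card : ℝ) ≤
      2 * C * τ * X := by
  have hXp : (0 : ℝ) < X := by exact_mod_cast hX
  have hθ0 : 0 < τ ^ 2 := by positivity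
  have hθ1 : τ ^ 2 ≤ 1 := pow_le_one₀ ht0.le ht1
  set m := ⌊τ ^ 2 * X⌋₊ with hm
  have hle : (m : ℝ) ≤ τ ^ 2 * X := Nat.floor_le (by positivity)
  have hcase : ∀ p ∈ (SP t c X).filter (fun p => ¬ (τ ^ 2 * X < p.1 ∧ τ ^ 2 * X < p.2)),
      p.1 ≤ m ∨ p.2 ≤ m := by
    intro p hp
    rw [mem_filter, not_and_or, not_lt, not_lt] at hp
    rcases hp.2 with h | h
    · left; exact Nat.le_floor h
    · right; exact Nat.le_floor h
  by_cases hm0 : 1 ≤ m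
  · have hmX : m ≤ X := by
      have : (m : ℝ) ≤ X := le_trans hle (by nlinarith)
      exact_mod_cast this
    have h := hC m X hm0 hmX
    set A := ((Icc 1 m) ×ˢ (Icc 1 X)).filter (fun p : ℕ × ℕ => ∃ n : ℕ, 0 < 2 * (n : ℤ) + t ∧
      (p.1 * p.2 : ℤ) = (n : ℤ) ^ 2 + t * n + c) with hA
    have h1 : (SP t c X).filter (fun p => ¬ (τ ^ 2 * X < p.1 ∧ τ ^ 2 * X < p.2)) ⊆
        A ∪ A.image Prod.swap := by
      intro p hp
      have h9 := hcase p hp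
      rw [mem_filter, mem_SP] at hp
      obtain ⟨⟨⟨⟨h1, h2⟩, ⟨h3, h4⟩⟩, h5⟩, h6⟩ := hp
      rw [mem_union]
      rcases h9 with h9 | h9
      · left
        rw [hA, mem_filter, mem_product, mem_Icc, mem_Icc]
        exact ⟨⟨⟨h1, h9⟩, ⟨h3, h4⟩⟩, h5⟩
      · right
        rw [mem_image]
        refine ⟨(p.2, p.1), ?_, rfl⟩
        rw [hA, mem_filter, mem_product, mem_Icc, mem_Icc]
        refine ⟨⟨⟨h3, h9⟩, ⟨h1, h2⟩⟩, ?_⟩
        obtain ⟨n, hn0, hn⟩ := h5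
        exact ⟨n, hn0, by rw [← hn]; exact mul_comm _ _⟩
    have h2 : (((SP t c X).filter (fun p => ¬ (τ ^ 2 * X < p.1 ∧ τ ^ 2 * X < p.2))).card : ℝ) ≤
        (A.card : ℝ) + A.card := by
      have h3 := card_le_card h1
      have h4 := card_union_le A (A.image Prod.swap)
      have h5 : (A.image Prod.swap).card ≤ A.card := card_image_le
      have : ((SP t c X).filter (fun p => ¬ (τ ^ 2 * X < p.1 ∧ τ ^ 2 * X < p.2))).card ≤
        A.card + A.card := by omega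
      exact_mod_cast this
    have h3 : Real.sqrt (m * X) ≤ τ * X := by
      have : (m : ℝ) * X ≤ (τ * X) * (τ * X) := by nlinarith
      calc Real.sqrt (m * X) ≤ Real.sqrt ((τ * X) * (τ * X)) := Real.sqrt_le_sqrt this
        _ = τ * X := Real.sqrt_mul_self (by positivity)
    have h4 : C * Real.sqrt (m * X) ≤ C * (τ * X) :=
      mul_le_mul_of_nonneg_left h3 hC0
    calc _ ≤ (A.card : ℝ) + A.card := h2
      _ ≤ C * (τ * X) + C * (τ * X) := by linarith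
      _ = _ := by ring
  · have h1 : (SP t c X).filter (fun p => ¬ (τ ^ 2 * X < p.1 ∧ τ ^ 2 * X < p.2)) = ∅ := by
      rw [Finset.eq_empty_iff_forall_notMem]
      intro p hp
      have h9 := hcase p hp
      rw [mem_filter, mem_SP] at hp
      obtain ⟨⟨⟨⟨h1, h2⟩, ⟨h3, h4⟩⟩, h5⟩, h6⟩ := hp
      omega
    rw [h1, card_empty, Nat.cast_zero]
    positivity

open scoped Classical in
/-- `S_CORR` for complex functions -/
theorem corrC (h2 : S_CORR t c) (X : ℕ) (hX : 1 ≤ X) (G : ℕ → ℕ → ℂ) :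
    ∑ e ∈ (dedge t c (X : ℝ)).filter (fun e => 0 < pp e.1 e.2), G (nm e.1) (nm e.2) =
      (uc t c : ℂ) * ∑ p ∈ SP t c X, G p.1 p.2 := by
  have hX' : (1 : ℝ) ≤ X := by exact_mod_cast hX
  have hr := h2 X (fun x y => (G x y).re) hX'
  have hi := h2 X (fun x y => (G x y).im) hX'
  rw [Nat.floor_natCast] at hr hi
  have h4 : (uc t c : ℂ) = ((uc t c : ℝ) : ℂ) := by push_cast; rfl
  rw [h4]
  apply Complex.ext
  · rw [Complex.re_sum, hr, Complex.re_ofReal_mul, Complex.re_sum]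
  · rw [Complex.im_sum, hi, Complex.im_ofReal_mul, Complex.im_sum]

open scoped Classical in
theorem AG_win (h2 : S_CORR t c) (F : ℕ → ℕ → ℂ) (a b d d' : ℝ) (X : ℕ) (hX : 1 ≤ X) :
    AG (fun e : Qd t c × Qd t c => F (nm e.1) (nm e.2)) a b d d' X =
      (uc t c : ℂ) * ∑ p ∈ SP t c X,
      if a * X < (p.1 : ℝ) ∧ (p.1 : ℝ) ≤ b * X ∧ d * X < (p.2 : ℝ) ∧ (p.2 : ℝ) ≤ d' * X then
        F p.1 p.2 else 0 := by
  rw [← corrC h2 X hX (fun x y => if a * X < (x : ℝ) ∧ (x : ℝ) ≤ b * X ∧ d * X < (y : ℝ) ∧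
    (y : ℝ) ≤ d' * X then F x y else 0)]
  unfold AG
  simp only [Finset.sum_filter]
  apply sum_congr rfl
  intro e he
  by_cases c1 : 0 < pp e.1 e.2
  · by_cases c2 : a * X < (nm e.1 : ℝ) ∧ (nm e.1 : ℝ) ≤ b * X ∧ d * X < (nm e.2 : ℝ) ∧
      (nm e.2 : ℝ) ≤ d' * X
    · rw [if_pos ⟨c1, c2⟩, if_pos c1, if_pos c2]
    · rw [if_neg (fun h3 => c2 h3.2), if_pos c1, if_neg c2]
  · rw [if_neg (fun h3 => c1 h3.1), if_neg c1]

open scoped Classical in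
/-- pairs in a window -/
noncomputable def Win (t c : ℤ) (s₁ s₂ s₃ s₄ : ℝ) (X : ℕ) : Finset (ℕ × ℕ) :=
  (SP t c X).filter (fun p => s₁ * X < (p.1 : ℝ) ∧ (p.1 : ℝ) ≤ s₂ * X ∧ s₃ * X < (p.2 : ℝ) ∧
    (p.2 : ℝ) ≤ s₄ * X)

theorem mem_Win {s₁ s₂ s₃ s₄ : ℝ} {X : ℕ} {p : ℕ × ℕ} : p ∈ Win t c s₁ s₂ s₃ s₄ X ↔
    p ∈ SP t c X ∧
    s₁ * X < (p.1 : ℝ) ∧ (p.1 : ℝ) ≤ s₂ * X ∧ s₃ * X < (p.2 : ℝ) ∧ (p.2 : ℝ) ≤ s₄ * X := by
  unfold Win
  rw [mem_filter]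

theorem uc_pos (hD : t ^ 2 < 4 * c) : 1 ≤ uc t c := by
  unfold uc
  apply Finset.card_pos.2
  refine ⟨1, (mem_ball hD).2 ?_⟩
  rw [nm_one]
  norm_num

open scoped Classical in
theorem per_scale (hD : t ^ 2 < 4 * c) (h2 : S_CORR t c) (C : ℝ) (hC : ∀ m M : ℕ, 1 ≤ m → m ≤ M →
    ((((Icc 1 m) ×ˢ (Icc 1 M)).filter (fun p => ∃ n : ℕ, 0 < 2 * (n : ℤ) + t ∧
      (p.1 * p.2 : ℤ) = (n : ℤ) ^ 2 + t * n + c)).card : ℝ) ≤
    C * Real.sqrt (m * M)) (hC0 : 0 ≤ C) (τ : ℝ) (ht0 : 0 < τ) (ht1 : τ ≤ 1)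
    (F : ℕ → ℕ → ℂ) (hF : ∀ a b, ‖F a b‖ ≤ 1) (s₁ s₂ s₃ s₄ : ℝ) (X : ℕ) (hX : 1 ≤ X) :
    ‖∑ p ∈ Win t c s₁ s₂ s₃ s₄ X, F p.1 p.2‖ ≤ 2 * C * τ * X +
      ‖AG (fun e : Qd t c × Qd t c => F (nm e.1) (nm e.2)) (max s₁ (τ ^ 2)) s₂ (max s₃ (τ ^ 2))
        s₄ X‖ := by
  have hXp : (0 : ℝ) ≤ X := Nat.cast_nonneg X
  rw [AG_win h2 F _ _ _ _ X hX, norm_mul]
  set A := Win t c s₁ s₂ s₃ s₄ X with hA
  set B := Win t c (max s₁ (τ ^ 2)) s₂ (max s₃ (τ ^ 2)) s₄ X with hB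
  have hBA : B ⊆ A := by
    intro p hp
    rw [hB, mem_Win, max_mul_of_nonneg _ _ hXp, max_mul_of_nonneg _ _ hXp, max_lt_iff,
      max_lt_iff] at hp
    rw [hA, mem_Win]
    exact ⟨hp.1, hp.2.1.1, hp.2.2.1, hp.2.2.2.1.1, hp.2.2.2.2⟩
  have hAB : A \ B ⊆ (SP t c X).filter (fun p => ¬ (τ ^ 2 * X < p.1 ∧ τ ^ 2 * X < p.2)) := by
    intro p hp
    rw [Finset.mem_sdiff, hA, hB, mem_Win, mem_Win, max_mul_of_nonneg _ _ hXp,
      max_mul_of_nonneg _ _ hXp, max_lt_iff, max_lt_iff] at hp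
    rw [mem_filter]
    refine ⟨hp.1.1, fun h => hp.2 ⟨hp.1.1, ⟨hp.1.2.1, h.1⟩, hp.1.2.2.1, ⟨hp.1.2.2.2.1, h.2⟩,
      hp.1.2.2.2.2⟩⟩
  have e1 := Finset.sum_sdiff (f := fun p : ℕ × ℕ => F p.1 p.2) hBA
  have b2 : ∑ p ∈ B, F p.1 p.2 =
      ∑ p ∈ SP t c X, if max s₁ (τ ^ 2) * X < (p.1 : ℝ) ∧
        (p.1 : ℝ) ≤ s₂ * X ∧ max s₃ (τ ^ 2) * X < (p.2 : ℝ) ∧ (p.2 : ℝ) ≤ s₄ * X then
        F p.1 p.2 else 0 := by
    rw [← Finset.sum_filter]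
    rfl
  have b3 : ‖∑ p ∈ A \ B, F p.1 p.2‖ ≤ 2 * C * τ * X := by
    refine le_trans (norm_sum_le _ _) ?_
    refine le_trans (Finset.sum_le_sum (fun p _ => hF p.1 p.2)) ?_
    rw [Finset.sum_const, nsmul_eq_mul, mul_one]
    refine le_trans ?_ (card3 C hC hC0 τ ht0 ht1 X hX)
    exact_mod_cast card_le_card hAB
  rw [← e1, ← b2]
  refine le_trans (norm_add_le _ _) ?_
  refine add_le_add b3 ?_
  have hu : (1 : ℝ) ≤ ‖(uc t c : ℂ)‖ := by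
    rw [Complex.norm_natCast]
    exact_mod_cast uc_pos hD
  nlinarith [norm_nonneg (∑ p ∈ B, F p.1 p.2)]

/-- from windows away from `0` to all windows -/
theorem finyw (hD : t ^ 2 < 4 * c) (h2 : S_CORR t c) (h3 : S_SCNT t c) (F : ℕ → ℕ → ℂ)
    (hF : ∀ a b, ‖F a b‖ ≤ 1)
    (s₁ s₂ s₃ s₄ : ℝ) (hs1 : 0 ≤ s₁) (hs12 : s₁ < s₂) (hs3 : 0 ≤ s₃) (hs34 : s₃ < s₄)
    (hyp : ∀ σ₁ σ₃ : ℝ, 0 < σ₁ → σ₁ < s₂ → 0 < σ₃ → σ₃ < s₄ → ∀ ε : ℝ, 0 < ε →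
      ∃ N₀ : ℕ, ∀ N : ℕ, N₀ ≤ N → ∑ X ∈ Icc 1 N, 1 / (X : ℝ) ^ 2 *
        ‖AG (fun e : Qd t c × Qd t c => F (nm e.1) (nm e.2)) σ₁ s₂ σ₃ s₄ X‖ ≤ ε * Real.log N)
    (ε : ℝ) (hε : 0 < ε) : ∃ N₀ : ℕ, ∀ N : ℕ, N₀ ≤ N →
      ∑ X ∈ Icc 1 N, 1 / (X : ℝ) ^ 2 * ‖∑ p ∈ Win t c s₁ s₂ s₃ s₄ X, F p.1 p.2‖ ≤
        ε * Real.log N := by
  obtain ⟨C, hC⟩ := h3
  have hC0 : 0 ≤ C := by
    have h := hC 1 1 le_rfl le_rfl
    have h4 : (0 : ℝ) ≤ C * Real.sqrt ((1 : ℕ) * (1 : ℕ)) := le_trans (Nat.cast_nonneg _) h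
    simpa using h4
  set τ : ℝ := min (min (1 / 2) (ε / (8 * (C + 1)))) (min s₂ s₄) with ht
  have ht0 : 0 < τ := lt_min (lt_min (by norm_num) (by positivity))
    (lt_min (lt_of_le_of_lt hs1 hs12) (lt_of_le_of_lt hs3 hs34))
  have hlt : τ < 1 := lt_of_le_of_lt ((min_le_left _ _).trans (min_le_left _ _)) (by norm_num)
  have ht1 : τ ≤ 1 := hlt.le
  have htt : τ ^ 2 < τ := by nlinarith
  have hts2 : τ ≤ s₂ := (min_le_right _ _).trans (min_le_left _ _)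
  have hts4 : τ ≤ s₄ := (min_le_right _ _).trans (min_le_right _ _)
  have ht2 : 2 * C * τ ≤ ε / 4 := by
    have h5 : τ ≤ ε / (8 * (C + 1)) := (min_le_left _ _).trans (min_le_right _ _)
    rw [le_div_iff₀ (by positivity)] at h5
    nlinarith
  obtain ⟨N₀, hN₀⟩ := hyp (max s₁ (τ ^ 2)) (max s₃ (τ ^ 2)) (lt_max_of_lt_right (by positivity))
    (max_lt hs12 (by linarith)) (lt_max_of_lt_right (by positivity)) (max_lt hs34 (by linarith))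
    (ε / 4) (by positivity)
  have hlim : Tendsto (fun N : ℕ => Real.log N) atTop atTop :=
    Real.tendsto_log_atTop.comp tendsto_natCast_atTop_atTop
  obtain ⟨N₁, hN₁⟩ := (hlim.eventually_gt_atTop
    ((2 + 2 * C * τ) * 4 / ε)).exists_forall_of_atTop
  refine ⟨max (max N₀ N₁) 2, fun N hN => ?_⟩
  have g1 : N₀ ≤ N := le_trans (le_trans (le_max_left _ _) (le_max_left _ _)) hN
  have g2 : N₁ ≤ N := le_trans (le_trans (le_max_right _ _) (le_max_left _ _)) hN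
  have g3 : 2 ≤ N := le_trans (le_max_right _ _) hN
  have g4 := hN₁ N g2
  have g5 := hN₀ N g1
  have hl : 0 < Real.log N := Real.log_pos (by exact_mod_cast g3)
  rw [div_lt_iff₀ hε] at g4
  have k1 : ∑ X ∈ Icc 1 N, 1 / (X : ℝ) ^ 2 * ‖∑ p ∈ Win t c s₁ s₂ s₃ s₄ X, F p.1 p.2‖ ≤
      ∑ X ∈ Icc 1 N, 1 / (X : ℝ) ^ 2 * (2 * C * τ * X +
      ‖AG (fun e : Qd t c × Qd t c => F (nm e.1) (nm e.2)) (max s₁ (τ ^ 2)) s₂
        (max s₃ (τ ^ 2)) s₄ X‖) := by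
    apply Finset.sum_le_sum
    intro X hX
    exact mul_le_mul_of_nonneg_left
      (per_scale hD h2 C hC hC0 τ ht0 ht1 F hF s₁ s₂ s₃ s₄ X (mem_Icc.1 hX).1) (by positivity)
  have k2 : ∑ X ∈ Icc 1 N, 1 / (X : ℝ) ^ 2 * (2 * C * τ * X +
      ‖AG (fun e : Qd t c × Qd t c => F (nm e.1) (nm e.2)) (max s₁ (τ ^ 2)) s₂
        (max s₃ (τ ^ 2)) s₄ X‖) =
      2 * C * τ * ∑ X ∈ Icc 1 N, 1 / (X : ℝ) +
      ∑ X ∈ Icc 1 N, 1 / (X : ℝ) ^ 2 *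
      ‖AG (fun e : Qd t c × Qd t c => F (nm e.1) (nm e.2)) (max s₁ (τ ^ 2)) s₂
        (max s₃ (τ ^ 2)) s₄ X‖ := by
    rw [Finset.mul_sum, ← Finset.sum_add_distrib]
    apply Finset.sum_congr rfl
    intro X hX
    have hX0 : (X : ℝ) ≠ 0 := by
      have := (mem_Icc.1 hX).1
      positivity
    field_simp
  have k4 : 2 * C * τ * ∑ X ∈ Icc 1 N, 1 / (X : ℝ) ≤ 2 * C * τ * (1 + Real.log N) :=
    mul_le_mul_of_nonneg_left (sum_inv_le N) (by positivity)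
  have k5 : 2 * C * τ * Real.log N ≤ ε / 4 * Real.log N :=
    mul_le_mul_of_nonneg_right ht2 hl.le
  nlinarith

open scoped Classical in
theorem corew (hFd : Fd t c f χ) (h1 : S_MAINY t c χ) (h2 : S_CORR t c) (h3 : S_SCNT t c)
    (hb : ∀ (N : ℕ) (b : ℂ), 1 ≤ N → b ^ N = 1 → b ≠ 1 → ∀ (q : ℕ) (β : Qd t c), 1 ≤ q →
      Bt χ (cl q β (fun z => (bO b z).re)) ∧ Bt χ (cl q β (fun z => (bO b z).im)))
    (k : ℕ) (b₁ b₂ : ℂ) (hk : 1 ≤ k) (hb₁ : b₁ ^ k = 1) (hb₂ : b₂ ^ k = 1) (hne : b₂ ≠ 1)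
    (q a r : ℕ) (hq : 1 ≤ q) (sw : Bool) (s₁ s₂ s₃ s₄ : ℝ) (hs1 : 0 ≤ s₁) (hs12 : s₁ < s₂)
    (hs2 : s₂ ≤ 1) (hs3 : 0 ≤ s₃) (hs34 : s₃ < s₄) (hs4 : s₄ ≤ 1) (ε : ℝ) (hε : 0 < ε) :
    ∃ N₀ : ℕ, ∀ N : ℕ, N₀ ≤ N →
    ∑ X ∈ Icc 1 N, 1 / (X : ℝ) ^ 2 * ‖∑ p ∈ Win t c s₁ s₂ s₃ s₄ X,
      (if CC t c q a r sw p.1 p.2 then
      b₁ ^ ArithmeticFunction.cardFactors p.1 * b₂ ^ ArithmeticFunction.cardFactors p.2 else 0)‖ ≤
      ε * Real.log N := by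
  have hD := hD_of hFd
  refine finyw hD h2 h3 (fun x y => if CC t c q a r sw x y then
      b₁ ^ ArithmeticFunction.cardFactors x * b₂ ^ ArithmeticFunction.cardFactors y else 0) ?_
      s₁ s₂ s₃ s₄ hs1 hs12 hs3 hs34 ?_ ε hε
  · intro x y
    show ‖if CC t c q a r sw x y then _ else (0 : ℂ)‖ ≤ 1
    split_ifs
    · rw [norm_mul, norm_pow, norm_pow, norm_one_of k b₁ hk hb₁, norm_one_of k b₂ hk hb₂]
      simp
    · simp
  · intro σ₁ σ₃ hσ1 hσ12 hσ3 hσ34 ε hε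
    have hPr : Pr k (b₁ * b₂) (bO b₁ : Qd t c → ℂ) (bO b₂) :=
      ⟨bO_cm hD k b₁ hk hb₁, bO_cm hD k b₂ hk hb₂, fun π hπ => by
        unfold bO
        rw [ArithmeticFunction.cardFactors_apply_prime hπ, pow_one, pow_one]⟩
    obtain ⟨N₀, hN₀⟩ := h1 k (b₁ * b₂) (bO b₁) (bO b₂) hPr q hq
      (fun β => hb k b₂ hk hb₂ hne q β hq) (RR q a r sw) (RR_rel hD q a r sw) σ₁ s₂ σ₃ s₄ hσ1
      hσ12 hs2 hσ3 hσ34 hs4 ε hε
    refine ⟨N₀, fun N hN => ?_⟩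
    have hthis := hN₀ N hN
    have hAG : ∀ X : ℕ, AG (fun e : Qd t c × Qd t c => (fun x y => if CC t c q a r sw x y then
        b₁ ^ ArithmeticFunction.cardFactors x * b₂ ^ ArithmeticFunction.cardFactors y else 0)
          (nm e.1) (nm e.2)) σ₁ s₂ σ₃ s₄ (X : ℝ) =
        AG (g2 (bO b₁ : Qd t c → ℂ) (bO b₂) (RR q a r sw)) σ₁ s₂ σ₃ s₄ (X : ℝ) := by
      intro X
      unfold AG
      refine sum_congr rfl fun e he => ?_
      rw [mem_filter] at he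
      have hdt : dt e.1 e.2 = 1 := by
        have h3 := he.1
        unfold dedge at h3
        exact (mem_filter.1 h3).2
      unfold g2 bO
      beta_reduce
      have hiff := CC_iff hFd q a r sw e.1 e.2 hdt he.2.1
      by_cases hc : CC t c q a r sw (nm e.1) (nm e.2)
      · rw [if_pos hc, if_pos (hiff.1 hc)]
      · rw [if_neg hc, if_neg (fun h => hc (hiff.2 h))]
    refine le_trans (le_of_eq (sum_congr rfl fun X _ => ?_)) hthis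
    rw [hAG X]

open scoped Classical in
theorem SW_eq (q a r : ℕ) (s₁ s₂ s₃ s₄ : ℝ) (X : ℕ) :
    SW t c q a r s₁ s₂ s₃ s₄ X = (Win t c s₁ s₂ s₃ s₄ X).filter (Cd t c q a r) := by
  ext p
  unfold SW
  rw [mem_filter, mem_filter, mem_Win]
  tauto

/-- CHRW -/
theorem chrw (hF : Fd t c f χ) (h1 : S_MAINY t c χ) (h2 : S_CORR t c) (h3 : S_SCNT t c)
    (hb : ∀ (N : ℕ) (b : ℂ), 1 ≤ N → b ^ N = 1 → b ≠ 1 → ∀ (q : ℕ) (β : Qd t c), 1 ≤ q →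
      Bt χ (cl q β (fun z => (bO b z).re)) ∧ Bt χ (cl q β (fun z => (bO b z).im))) :
    S_CHRW t c := by
  classical
  intro k b₁ b₂ hk hb₁ hb₂ hne q a r hq s₁ s₂ s₃ s₄ hs1 hs12 hs2 hs3 hs34 hs4 ε hε
  by_cases hb2 : b₂ = 1
  · have hb1 : b₁ ≠ 1 := by
      rcases hne with h | h
      · exact h
      · exact absurd hb2 h
    obtain ⟨N₀, hN₀⟩ := corew hF h1 h2 h3 hb k b₂ b₁ hk hb₂ hb₁ hb1 q a r hq true s₃ s₄ s₁ s₂
      hs3 hs34 hs4 hs1 hs12 hs2 ε hε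
    refine ⟨N₀, fun N hN => le_trans (le_of_eq (sum_congr rfl fun X _ => ?_)) (hN₀ N hN)⟩
    congr 2
    rw [SW_eq, sum_filter]
    refine sum_nbij' Prod.swap Prod.swap ?_ ?_ (fun p _ => Prod.swap_swap p)
      (fun p _ => Prod.swap_swap p) fun p hp => ?_
    · intro p hp
      rw [mem_Win] at hp ⊢
      exact ⟨SP_swap hp.1, hp.2.2.2.1, hp.2.2.2.2, hp.2.1, hp.2.2.1⟩
    · intro p hp
      rw [mem_Win] at hp ⊢
      exact ⟨SP_swap hp.1, hp.2.2.2.1, hp.2.2.2.2, hp.2.1, hp.2.2.1⟩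
    have hiff : CC t c q a r true p.swap.1 p.swap.2 ↔ Cd t c q a r p := by
      unfold CC Cd
      simp only [if_true, Prod.fst_swap, Prod.snd_swap]
      constructor
      · rintro ⟨n, h0, h3, h4, h5⟩
        exact ⟨n, h0, by rw [mul_comm]; exact h3, h4, h5⟩
      · rintro ⟨n, h0, h3, h4, h5⟩
        exact ⟨n, h0, by rw [mul_comm]; exact h3, h4, h5⟩
    by_cases hc : CC t c q a r true p.swap.1 p.swap.2
    · rw [if_pos hc, if_pos (hiff.1 hc)]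
      simp only [Prod.fst_swap, Prod.snd_swap]
      rw [mul_comm]
    · rw [if_neg hc, if_neg (fun h => hc (hiff.2 h))]
  · obtain ⟨N₀, hN₀⟩ := corew hF h1 h2 h3 hb k b₁ b₂ hk hb₁ hb₂ hb2 q a r hq false s₁ s₂ s₃ s₄
      hs1 hs12 hs2 hs3 hs34 hs4 ε hε
    refine ⟨N₀, fun N hN => le_trans (le_of_eq (sum_congr rfl fun X _ => ?_)) (hN₀ N hN)⟩
    congr 2
    rw [SW_eq, sum_filter]
    refine sum_congr rfl fun p hp => ?_
    have hiff : CC t c q a r false p.1 p.2 ↔ Cd t c q a r p := by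
      unfold CC Cd
      simp only [Bool.false_eq_true, if_false]
    by_cases hc : CC t c q a r false p.1 p.2
    · rw [if_pos hc, if_pos (hiff.1 hc)]
    · rw [if_neg hc, if_neg (fun h => hc (hiff.2 h))]

end Pool.Agent.W334.EG
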